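import Mathlib
import Pool.Agent.Helper59.VSum.AdEquiv

/-!
# Representations containing the adjoint representation, for groups of type `A`

If `V = U ⊕ 𝔤`, where `U = ⊕_a U_a` is any direct sum of irreducible rational representations of
`∏ SL_{n_i}(k)` and `𝔤` is the adjoint representation, then `V` and `V*` are birationally isomorphic.
-/

namespace Pool.Agent.Results.MP_d7ed3f_ag.AdjointSummand

open MvPolynomial Matrix

universe u v w

/-- The group `∏ SL_{n_i}(k)`. -/
abbrev SLProd (k : Type u) [Field k] {I : Type v} (n : I → ℕ) : Type (max u v) :=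
  ∀ i, Matrix.SpecialLinearGroup (Fin (n i)) k

section reps

variable {k : Type u} [Field k] {I : Type v} {n : I → ℕ} {m : ℕ}

/-- A homomorphism `R : ∏ SL_{n_i}(k) → GL_m(k)` is a rational representation if the entries of
`R g` are polynomials in the entries of `g`. -/
def IsRational (R : SLProd k n →* GL (Fin m) k) : Prop :=
  ∃ P : Fin m → Fin m → MvPolynomial (Σ i, Fin (n i) × Fin (n i)) k,
    ∀ (g : SLProd k n) (x y : Fin m), (R g : Matrix (Fin m) (Fin m) k) x y =
      eval (fun e => (g e.1 : Matrix (Fin (n e.1)) (Fin (n e.1)) k) e.2.1 e.2.2) (P x y)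

/-- `R` is irreducible: `k^m` is non-zero and has no invariant subspace besides `0` and `k^m`. -/
def IsIrreducible (R : SLProd k n →* GL (Fin m) k) : Prop :=
  0 < m ∧ ∀ W : Submodule k (Fin m → k),
    (∀ g, ∀ w ∈ W, (R g : Matrix (Fin m) (Fin m) k) *ᵥ w ∈ W) → W = ⊥ ∨ W = ⊤

end reps

section sums

variable {k : Type u} [Field k] {G : Type*} [Group G]

/-- The direct sum `U = ⊕_a k^{m_a}` of matrix representations. -/
def directSum {A : Type w} [Fintype A] [DecidableEq A] {m : A → ℕ}
    (R : ∀ a, G →* GL (Fin (m a)) k) : G →* GL (Σ a, Fin (m a)) k where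
  toFun g :=
    { val := Matrix.blockDiagonal' fun a => (R a g : Matrix (Fin (m a)) (Fin (m a)) k)
      inv := Matrix.blockDiagonal' fun a => (R a g⁻¹ : Matrix (Fin (m a)) (Fin (m a)) k)
      val_inv := by
        rw [← Matrix.blockDiagonal'_mul]
        have : (fun a => (R a g : Matrix (Fin (m a)) (Fin (m a)) k) *
            (R a g⁻¹ : Matrix (Fin (m a)) (Fin (m a)) k)) = fun a => 1 := by
          funext a
          rw [← Units.val_mul, ← map_mul, mul_inv_cancel, map_one, Units.val_one]
        rw [this]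
        exact Matrix.blockDiagonal'_one
      inv_val := by
        rw [← Matrix.blockDiagonal'_mul]
        have : (fun a => (R a g⁻¹ : Matrix (Fin (m a)) (Fin (m a)) k) *
            (R a g : Matrix (Fin (m a)) (Fin (m a)) k)) = fun a => 1 := by
          funext a
          rw [← Units.val_mul, ← map_mul, inv_mul_cancel, map_one, Units.val_one]
        rw [this]
        exact Matrix.blockDiagonal'_one }
  map_one' := by
    apply Units.ext
    have : (fun a => (R a 1 : Matrix (Fin (m a)) (Fin (m a)) k)) = fun a => 1 := by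
      funext a
      rw [map_one, Units.val_one]
    change Matrix.blockDiagonal' (fun a => (R a 1 : Matrix (Fin (m a)) (Fin (m a)) k)) = 1
    rw [this]
    exact Matrix.blockDiagonal'_one
  map_mul' g h := by
    apply Units.ext
    change Matrix.blockDiagonal' (fun a => (R a (g * h) : Matrix (Fin (m a)) (Fin (m a)) k)) =
      Matrix.blockDiagonal' (fun a => (R a g : Matrix (Fin (m a)) (Fin (m a)) k)) *
        Matrix.blockDiagonal' (fun a => (R a h : Matrix (Fin (m a)) (Fin (m a)) k))
    rw [← Matrix.blockDiagonal'_mul]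
    congr 1
    funext a
    rw [map_mul, Units.val_mul]

variable {ι : Type w} [Fintype ι] [DecidableEq ι]

/-- The direct sum `k^ι ⊕ k^κ` of two matrix representations. -/
def sumTwo {κ : Type*} [Fintype κ] [DecidableEq κ] (R : G →* GL ι k) (S : G →* GL κ k) :
    G →* GL (ι ⊕ κ) k where
  toFun g :=
    { val := Matrix.fromBlocks (R g : Matrix ι ι k) 0 0 (S g : Matrix κ κ k)
      inv := Matrix.fromBlocks (R g⁻¹ : Matrix ι ι k) 0 0 (S g⁻¹ : Matrix κ κ k)
      val_inv := by
        rw [Matrix.fromBlocks_multiply, ← Units.val_mul, ← Units.val_mul, ← map_mul, ← map_mul,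
          mul_inv_cancel, map_one, map_one]
        simp
      inv_val := by
        rw [Matrix.fromBlocks_multiply, ← Units.val_mul, ← Units.val_mul, ← map_mul, ← map_mul,
          inv_mul_cancel, map_one, map_one]
        simp }
  map_one' := by
    apply Units.ext
    change Matrix.fromBlocks (R 1 : Matrix ι ι k) 0 0 (S 1 : Matrix κ κ k) = 1
    rw [map_one, map_one, Units.val_one, Units.val_one, Matrix.fromBlocks_one]
  map_mul' g h := by
    apply Units.ext
    change Matrix.fromBlocks (R (g * h) : Matrix ι ι k) 0 0 (S (g * h) : Matrix κ κ k) =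
      Matrix.fromBlocks (R g : Matrix ι ι k) 0 0 (S g : Matrix κ κ k) *
      Matrix.fromBlocks (R h : Matrix ι ι k) 0 0 (S h : Matrix κ κ k)
    rw [Matrix.fromBlocks_multiply, map_mul, map_mul, Units.val_mul, Units.val_mul]
    simp

/-- The dual representation, in the dual basis: `g ↦ (R(g)⁻¹)ᵀ`. -/
def dualRep {ι : Type*} [Fintype ι] [DecidableEq ι] (R : G →* GL ι k) : G →* GL ι k where
  toFun g :=
    { val := (R g⁻¹ : Matrix ι ι k)ᵀ
      inv := (R g : Matrix ι ι k)ᵀ
      val_inv := by
        rw [← Matrix.transpose_mul, ← Units.val_mul, ← map_mul, mul_inv_cancel, map_one,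
          Units.val_one, Matrix.transpose_one]
      inv_val := by
        rw [← Matrix.transpose_mul, ← Units.val_mul, ← map_mul, inv_mul_cancel, map_one,
          Units.val_one, Matrix.transpose_one] }
  map_one' := by
    apply Units.ext
    change (R 1⁻¹ : Matrix ι ι k)ᵀ = 1
    rw [inv_one, map_one, Units.val_one, Matrix.transpose_one]
  map_mul' g h := by
    apply Units.ext
    change (R (g * h)⁻¹ : Matrix ι ι k)ᵀ = (R g⁻¹ : Matrix ι ι k)ᵀ * (R h⁻¹ : Matrix ι ι k)ᵀ
    rw [_root_.mul_inv_rev, map_mul, Units.val_mul, Matrix.transpose_mul]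

/-- The linear `G`-varieties `V = k^ι` (via `R`) and `V' = k^ι` (via `R'`) are birationally
`G`-isomorphic: there is a `k`-isomorphism `Θ : k(V') → k(V)` of function fields with
`Θ(f ∘ R'(g)) = Θ(f) ∘ R(g)` for all `g` in `G` and `f` in `k(V')`.  Here `VDual.FF k ι` is the
field of rational functions `k(x_i : i ∈ ι)` and `VDual.ffSub M` is the substitution
`f(x) ↦ f(M x)`. -/
def BirationallyIsomorphic {ι : Type*} [Fintype ι] [DecidableEq ι] (R R' : G →* GL ι k) : Prop :=
  ∃ Θ : VDual.FF k ι ≃ₐ[k] VDual.FF k ι, ∀ (g : G) (f : VDual.FF k ι),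
    Θ (VDual.ffSub (R' g) f) = VDual.ffSub (R g) (Θ f)

end sums

/-- Tuples of matrices, one for each `i`. -/
abbrev Tuples (k : Type u) {I : Type v} (n : I → ℕ) : Type (max u v) :=
  ∀ i, Matrix (Fin (n i)) (Fin (n i)) k

/-- `A` lies in the Lie algebra `∏ sl_{n_i}(k)`: every component has trace zero. -/
def IsTraceZero {k : Type u} [Field k] {I : Type v} {n : I → ℕ} (A : Tuples k n) : Prop :=
  ∀ i, (A i).trace = 0

/-- The conjugation `A ↦ g A g⁻¹`. -/
def conjTuple {k : Type u} [Field k] {I : Type v} {n : I → ℕ} (g : SLProd k n) (A : Tuples k n) :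
    Tuples k n :=
  fun i => (g i).1 * A i * (g i)⁻¹.1

/-- `S` is the adjoint representation of `∏ SL_{n_i}(k)` in some basis of `∏ sl_{n_i}(k)`: there is
an injective linear map `L` from `k^q` onto the trace zero tuples with `L (S(g) v) = g L(v) g⁻¹`. -/
def IsAdjoint {k : Type u} [Field k] {I : Type v} {n : I → ℕ} {q : ℕ}
    (S : SLProd k n →* GL (Fin q) k) : Prop :=
  ∃ L : (Fin q → k) →ₗ[k] Tuples k n, Function.Injective L ∧
    (∀ A, IsTraceZero A ↔ ∃ v, L v = A) ∧
    ∀ (g : SLProd k n) (v : Fin q → k), L ((S g).1 *ᵥ v) = conjTuple g (L v)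

/-- Let `k` be algebraically closed of characteristic zero, `U = ⊕_a U_a` any direct sum of
irreducible rational representations `R a` of `∏ SL_{n_i}(k)`, `𝔤 = ∏ sl_{n_i}(k)` the adjoint
representation `S` (in any basis) and `V = U ⊕ 𝔤`.  Then `V` and `V*` are birationally isomorphic,
equivariantly for `∏ SL_{n_i}(k)`, hence for its image `G` in `GL(V)`. -/
theorem result {k : Type u} [Field k] [IsAlgClosed k] [CharZero k]
    {I : Type v} [Fintype I] [DecidableEq I] {A : Type w} [Fintype A] [DecidableEq A]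
    (n : I → ℕ) (hn : ∀ i, 0 < n i) (m : A → ℕ)
    (R : ∀ a, SLProd k n →* GL (Fin (m a)) k)
    (hrat : ∀ a, IsRational (R a)) (hirr : ∀ a, IsIrreducible (R a))
    (q : ℕ) (S : SLProd k n →* GL (Fin q) k) (hS : IsAdjoint S) :
    BirationallyIsomorphic (sumTwo (directSum R) S) (dualRep (sumTwo (directSum R) S)) := by
  classical
  obtain ⟨L0, hinj, hrange, hL0⟩ := hS
  have hmem : ∀ v, L0 v ∈ VSum.slT k n := fun v => (hrange (L0 v)).mpr ⟨v, rfl⟩
  let L : (Fin q → k) ≃ₗ[k] VSum.slT k n :=
    LinearEquiv.ofBijective (LinearMap.codRestrict (VSum.slT k n) L0 hmem) ⟨by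
      intro v w hvw
      exact hinj (congrArg Subtype.val hvw), by
      rintro ⟨B, hB⟩
      obtain ⟨v, hv⟩ := (hrange B).mp hB
      exact ⟨v, Subtype.ext hv⟩⟩
  -- the polynomial representations
  choose ρ hρ J hJ hJs using fun a => VSum.exists_rho_J (k := k) (fun i => (hn i).ne')
    ((Units.coeHom (Matrix (Fin (m a)) (Fin (m a)) k)).comp (R a))
    (by
      obtain ⟨P, hP⟩ := hrat a
      refine ⟨Matrix.of P, ?_⟩
      intro g
      ext x y
      exact hP g x y)
    ⟨⟨⟨0, (hirr a).1⟩⟩, (hirr a).2⟩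
  have hval : ∀ g, (directSum R g : Matrix (Σ a, Fin (m a)) (Σ a, Fin (m a)) k) =
      VDual.ev (VSum.sumRep ρ).P (VDual.toT g) := by
    intro g
    rw [VSum.sumRep_ev]
    change Matrix.blockDiagonal' (fun a => (R a g : Matrix (Fin (m a)) (Fin (m a)) k)) = _
    congr 1
    funext a
    exact hρ a g
  let JT : (Matrix (Σ a, Fin (m a)) (Σ a, Fin (m a)) k)ˣ :=
    { val := Matrix.blockDiagonal' fun a => (J a : Matrix (Fin (m a)) (Fin (m a)) k)
      inv := Matrix.blockDiagonal' fun a => ((J a)⁻¹ : (Matrix (Fin (m a)) (Fin (m a)) k)ˣ).val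
      val_inv := by
        rw [← Matrix.blockDiagonal'_mul]
        have : (fun a => (J a : Matrix (Fin (m a)) (Fin (m a)) k) *
            ((J a)⁻¹ : (Matrix (Fin (m a)) (Fin (m a)) k)ˣ).val) = fun a => 1 := by
          funext a
          rw [Units.mul_inv]
        rw [this]
        exact Matrix.blockDiagonal'_one
      inv_val := by
        rw [← Matrix.blockDiagonal'_mul]
        have : (fun a => ((J a)⁻¹ : (Matrix (Fin (m a)) (Fin (m a)) k)ˣ).val *
            (J a : Matrix (Fin (m a)) (Fin (m a)) k)) = fun a => 1 := by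
          funext a
          rw [Units.inv_mul]
        rw [this]
        exact Matrix.blockDiagonal'_one }
  have hJT : VSum.IsJ (VSum.sumRep ρ) (JT : Matrix (Σ a, Fin (m a)) (Σ a, Fin (m a)) k) :=
    VSum.sumRep_isJ ρ _ hJ
  have hJTs : (JT : Matrix (Σ a, Fin (m a)) (Σ a, Fin (m a)) k)ᵀ = JT := by
    change (Matrix.blockDiagonal' fun a => (J a : Matrix (Fin (m a)) (Fin (m a)) k))ᵀ =
      Matrix.blockDiagonal' fun a => (J a : Matrix (Fin (m a)) (Fin (m a)) k)
    rw [Matrix.blockDiagonal'_transpose]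
    congr 1
    funext a
    exact hJs a
  have hL' : ∀ (g : SLProd k n) (v : Fin q → k),
      (L ((S g : Matrix (Fin q) (Fin q) k) *ᵥ v)).1 = VDual.toT g * (L v).1 * VDual.toT g⁻¹ := by
    intro g v
    exact hL0 g v
  obtain ⟨Θ, hΘ⟩ := VSum.bir_adjoint (k := k) S L (fun i => (hn i).ne') hL' (VSum.sumRep ρ) JT hJT hJTs
    (directSum R) (dualRep (directSum R)) (dualRep S) hval (fun _ => rfl) (fun _ => rfl)
  refine ⟨Θ, ?_⟩
  intro g f
  have h1 := hΘ g f
  have h2 : VSum.dsum (dualRep (directSum R)) (dualRep S) g = dualRep (sumTwo (directSum R) S) g := by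
    apply Units.ext
    change Matrix.fromBlocks ((directSum R g⁻¹ : Matrix (Σ a, Fin (m a)) (Σ a, Fin (m a)) k)ᵀ) 0 0
      ((S g⁻¹ : Matrix (Fin q) (Fin q) k)ᵀ) = (Matrix.fromBlocks
        (directSum R g⁻¹ : Matrix (Σ a, Fin (m a)) (Σ a, Fin (m a)) k) 0 0
        (S g⁻¹ : Matrix (Fin q) (Fin q) k))ᵀ
    rw [Matrix.fromBlocks_transpose, Matrix.transpose_zero, Matrix.transpose_zero]
  rw [h2] at h1
  exact h1

end Pool.Agent.Results.MP_d7ed3f_ag.AdjointSummand
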