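import Mathlib
import Pool.Agent.Helper59.VSum.Main

/-!
# `V = U ⊕ W` with `U` generically free and `dim W ≥ dim G`, for groups of type `A`

`G` is the image of `∏ SL_{n_i}(k)` in `GL(V)`, where `U = ⊕_a U_a` is a direct sum of irreducible
rational representations of `∏ SL_{n_i}(k)` and `W` is any rational representation.
-/

namespace Pool.Agent.Results.MP_d7ed3f_ag.LargeSummand

open MvPolynomial Matrix

universe u v w

/-- The group `∏ SL_{n_i}(k)`. -/
abbrev SLProd (k : Type u) [Field k] {I : Type v} (n : I → ℕ) : Type (max u v) :=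
  ∀ i, Matrix.SpecialLinearGroup (Fin (n i)) k

section reps

variable {k : Type u} [Field k] {I : Type v} {n : I → ℕ} {m : ℕ}

/-- A homomorphism `R : ∏ SL_{n_i}(k) → GL_m(k)` is a rational representation if the entries of
`R g` are polynomials in the entries of `g`. -/
def IsRational (R : SLProd k n →* GL (Fin m) k) : Prop :=
  ∃ P : Fin m → Fin m → MvPolynomial (Σ i, Fin (n i) × Fin (n i)) k,
    ∀ (g : SLProd k n) (x y : Fin m), (R g : Matrix (Fin m) (Fin m) k) x y =
      eval (fun e => (g e.1 : Matrix (Fin (n e.1)) (Fin (n e.1)) k) e.2.1 e.2.2) (P x y)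

/-- `R` is irreducible: `k^m` is non-zero and has no invariant subspace besides `0` and `k^m`. -/
def IsIrreducible (R : SLProd k n →* GL (Fin m) k) : Prop :=
  0 < m ∧ ∀ W : Submodule k (Fin m → k),
    (∀ g, ∀ w ∈ W, (R g : Matrix (Fin m) (Fin m) k) *ᵥ w ∈ W) → W = ⊥ ∨ W = ⊤

end reps

section sums

variable {k : Type u} [Field k] {G : Type*} [Group G]

/-- The direct sum `U = ⊕_a k^{m_a}` of matrix representations. -/
def directSum {A : Type w} [Fintype A] [DecidableEq A] {m : A → ℕ}
    (R : ∀ a, G →* GL (Fin (m a)) k) : G →* GL (Σ a, Fin (m a)) k where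
  toFun g :=
    { val := Matrix.blockDiagonal' fun a => (R a g : Matrix (Fin (m a)) (Fin (m a)) k)
      inv := Matrix.blockDiagonal' fun a => (R a g⁻¹ : Matrix (Fin (m a)) (Fin (m a)) k)
      val_inv := by
        rw [← Matrix.blockDiagonal'_mul]
        have : (fun a => (R a g : Matrix (Fin (m a)) (Fin (m a)) k) *
            (R a g⁻¹ : Matrix (Fin (m a)) (Fin (m a)) k)) = fun a => 1 := by
          funext a
          rw [← Units.val_mul, ← map_mul, mul_inv_cancel, map_one, Units.val_one]
        rw [this]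
        exact Matrix.blockDiagonal'_one
      inv_val := by
        rw [← Matrix.blockDiagonal'_mul]
        have : (fun a => (R a g⁻¹ : Matrix (Fin (m a)) (Fin (m a)) k) *
            (R a g : Matrix (Fin (m a)) (Fin (m a)) k)) = fun a => 1 := by
          funext a
          rw [← Units.val_mul, ← map_mul, inv_mul_cancel, map_one, Units.val_one]
        rw [this]
        exact Matrix.blockDiagonal'_one }
  map_one' := by
    apply Units.ext
    have : (fun a => (R a 1 : Matrix (Fin (m a)) (Fin (m a)) k)) = fun a => 1 := by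
      funext a
      rw [map_one, Units.val_one]
    change Matrix.blockDiagonal' (fun a => (R a 1 : Matrix (Fin (m a)) (Fin (m a)) k)) = 1
    rw [this]
    exact Matrix.blockDiagonal'_one
  map_mul' g h := by
    apply Units.ext
    change Matrix.blockDiagonal' (fun a => (R a (g * h) : Matrix (Fin (m a)) (Fin (m a)) k)) =
      Matrix.blockDiagonal' (fun a => (R a g : Matrix (Fin (m a)) (Fin (m a)) k)) *
        Matrix.blockDiagonal' (fun a => (R a h : Matrix (Fin (m a)) (Fin (m a)) k))
    rw [← Matrix.blockDiagonal'_mul]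
    congr 1
    funext a
    rw [map_mul, Units.val_mul]

variable {ι : Type w} [Fintype ι] [DecidableEq ι]

/-- The direct sum `k^ι ⊕ k^κ` of two matrix representations. -/
def sumTwo {κ : Type*} [Fintype κ] [DecidableEq κ] (R : G →* GL ι k) (S : G →* GL κ k) :
    G →* GL (ι ⊕ κ) k where
  toFun g :=
    { val := Matrix.fromBlocks (R g : Matrix ι ι k) 0 0 (S g : Matrix κ κ k)
      inv := Matrix.fromBlocks (R g⁻¹ : Matrix ι ι k) 0 0 (S g⁻¹ : Matrix κ κ k)
      val_inv := by
        rw [Matrix.fromBlocks_multiply, ← Units.val_mul, ← Units.val_mul, ← map_mul, ← map_mul,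
          mul_inv_cancel, map_one, map_one]
        simp
      inv_val := by
        rw [Matrix.fromBlocks_multiply, ← Units.val_mul, ← Units.val_mul, ← map_mul, ← map_mul,
          inv_mul_cancel, map_one, map_one]
        simp }
  map_one' := by
    apply Units.ext
    change Matrix.fromBlocks (R 1 : Matrix ι ι k) 0 0 (S 1 : Matrix κ κ k) = 1
    rw [map_one, map_one, Units.val_one, Units.val_one, Matrix.fromBlocks_one]
  map_mul' g h := by
    apply Units.ext
    change Matrix.fromBlocks (R (g * h) : Matrix ι ι k) 0 0 (S (g * h) : Matrix κ κ k) =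
      Matrix.fromBlocks (R g : Matrix ι ι k) 0 0 (S g : Matrix κ κ k) *
      Matrix.fromBlocks (R h : Matrix ι ι k) 0 0 (S h : Matrix κ κ k)
    rw [Matrix.fromBlocks_multiply, map_mul, map_mul, Units.val_mul, Units.val_mul]
    simp

/-- The dual representation, in the dual basis: `g ↦ (R(g)⁻¹)ᵀ`. -/
def dualRep {ι : Type*} [Fintype ι] [DecidableEq ι] (R : G →* GL ι k) : G →* GL ι k where
  toFun g :=
    { val := (R g⁻¹ : Matrix ι ι k)ᵀ
      inv := (R g : Matrix ι ι k)ᵀ
      val_inv := by
        rw [← Matrix.transpose_mul, ← Units.val_mul, ← map_mul, mul_inv_cancel, map_one,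
          Units.val_one, Matrix.transpose_one]
      inv_val := by
        rw [← Matrix.transpose_mul, ← Units.val_mul, ← map_mul, inv_mul_cancel, map_one,
          Units.val_one, Matrix.transpose_one] }
  map_one' := by
    apply Units.ext
    change (R 1⁻¹ : Matrix ι ι k)ᵀ = 1
    rw [inv_one, map_one, Units.val_one, Matrix.transpose_one]
  map_mul' g h := by
    apply Units.ext
    change (R (g * h)⁻¹ : Matrix ι ι k)ᵀ = (R g⁻¹ : Matrix ι ι k)ᵀ * (R h⁻¹ : Matrix ι ι k)ᵀ
    rw [_root_.mul_inv_rev, map_mul, Units.val_mul, Matrix.transpose_mul]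

/-- The linear `G`-varieties `V = k^ι` (via `R`) and `V' = k^ι` (via `R'`) are birationally
`G`-isomorphic: there is a `k`-isomorphism `Θ : k(V') → k(V)` of function fields with
`Θ(f ∘ R'(g)) = Θ(f) ∘ R(g)` for all `g` in `G` and `f` in `k(V')`.  Here `VDual.FF k ι` is the
field of rational functions `k(x_i : i ∈ ι)` and `VDual.ffSub M` is the substitution
`f(x) ↦ f(M x)`. -/
def BirationallyIsomorphic {ι : Type*} [Fintype ι] [DecidableEq ι] (R R' : G →* GL ι k) : Prop :=
  ∃ Θ : VDual.FF k ι ≃ₐ[k] VDual.FF k ι, ∀ (g : G) (f : VDual.FF k ι),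
    Θ (VDual.ffSub (R' g) f) = VDual.ffSub (R g) (Θ f)

end sums

/-- Let `k` be algebraically closed of characteristic zero, `U = ⊕_a U_a` a direct sum of irreducible
rational representations `R a` of `∏ SL_{n_i}(k)`, `W = k^q` a rational representation `S` of
`∏ SL_{n_i}(k)` and `V = U ⊕ W`; let `G` be the image of `∏ SL_{n_i}(k)` in `GL(V)`.  Suppose that

* (`hcen`) the kernel of `∏ SL_{n_i}(k) → G` is central;
* (`hfree`) for `v` in the dense open set `D ≠ 0` of `U` the stabilizer of `v` in `G` is trivial;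
* (`hq`) `dim W ≥ dim G = ∑ (n_i² - 1)`.

Then `V` and `V*` are birationally `G`-isomorphic. -/
theorem result {k : Type u} [Field k] [IsAlgClosed k] [CharZero k]
    {I : Type v} [Fintype I] [DecidableEq I] {A : Type w} [Fintype A] [DecidableEq A]
    (n : I → ℕ) (hn : ∀ i, 0 < n i) (m : A → ℕ)
    (R : ∀ a, SLProd k n →* GL (Fin (m a)) k)
    (hrat : ∀ a, IsRational (R a)) (hirr : ∀ a, IsIrreducible (R a))
    (q : ℕ) (S : SLProd k n →* GL (Fin q) k) (hS : IsRational S)
    (hq : ∑ i, (n i ^ 2 - 1) ≤ q)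
    (hcen : ∀ g, directSum R g = 1 → S g = 1 → g ∈ Subgroup.center (SLProd k n))
    (hfree : ∃ D : MvPolynomial (Σ a, Fin (m a)) k, D ≠ 0 ∧
      ∀ v : (Σ a, Fin (m a)) → k, eval v D ≠ 0 → ∀ g : SLProd k n,
        (directSum R g : Matrix (Σ a, Fin (m a)) (Σ a, Fin (m a)) k) *ᵥ v = v →
        directSum R g = 1 ∧ S g = 1) :
    BirationallyIsomorphic (sumTwo (directSum R) S) (dualRep (sumTwo (directSum R) S)) := by
  classical
  have : Infinite k := CharZero.infinite k
  obtain ⟨D, hD, hfree⟩ := hfree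
  -- the polynomial representations
  choose ρ hρ J hJ hJs using fun a => VSum.exists_rho_J (k := k) (fun i => (hn i).ne')
    ((Units.coeHom (Matrix (Fin (m a)) (Fin (m a)) k)).comp (R a))
    (by
      obtain ⟨P, hP⟩ := hrat a
      refine ⟨Matrix.of P, ?_⟩
      intro g
      ext x y
      exact hP g x y)
    ⟨⟨⟨0, (hirr a).1⟩⟩, (hirr a).2⟩
  have hval : ∀ g, (directSum R g : Matrix (Σ a, Fin (m a)) (Σ a, Fin (m a)) k) =
      VDual.ev (VSum.sumRep ρ).P (VDual.toT g) := by
    intro g
    rw [VSum.sumRep_ev]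
    change Matrix.blockDiagonal' (fun a => (R a g : Matrix (Fin (m a)) (Fin (m a)) k)) = _
    congr 1
    funext a
    exact hρ a g
  let JT : (Matrix (Σ a, Fin (m a)) (Σ a, Fin (m a)) k)ˣ :=
    { val := Matrix.blockDiagonal' fun a => (J a : Matrix (Fin (m a)) (Fin (m a)) k)
      inv := Matrix.blockDiagonal' fun a => ((J a)⁻¹ : (Matrix (Fin (m a)) (Fin (m a)) k)ˣ).val
      val_inv := by
        rw [← Matrix.blockDiagonal'_mul]
        have : (fun a => (J a : Matrix (Fin (m a)) (Fin (m a)) k) *
            ((J a)⁻¹ : (Matrix (Fin (m a)) (Fin (m a)) k)ˣ).val) = fun a => 1 := by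
          funext a
          rw [Units.mul_inv]
        rw [this]
        exact Matrix.blockDiagonal'_one
      inv_val := by
        rw [← Matrix.blockDiagonal'_mul]
        have : (fun a => ((J a)⁻¹ : (Matrix (Fin (m a)) (Fin (m a)) k)ˣ).val *
            (J a : Matrix (Fin (m a)) (Fin (m a)) k)) = fun a => 1 := by
          funext a
          rw [Units.inv_mul]
        rw [this]
        exact Matrix.blockDiagonal'_one }
  have hJT : VSum.IsJ (VSum.sumRep ρ) (JT : Matrix (Σ a, Fin (m a)) (Σ a, Fin (m a)) k) :=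
    VSum.sumRep_isJ ρ _ hJ
  have hJTs : (JT : Matrix (Σ a, Fin (m a)) (Σ a, Fin (m a)) k)ᵀ = JT := by
    change (Matrix.blockDiagonal' fun a => (J a : Matrix (Fin (m a)) (Fin (m a)) k))ᵀ =
      Matrix.blockDiagonal' fun a => (J a : Matrix (Fin (m a)) (Fin (m a)) k)
    rw [Matrix.blockDiagonal'_transpose]
    congr 1
    funext a
    exact hJs a
  have hcentral : ∀ g : SLProd k n, g ∈ Subgroup.center (SLProd k n) →
      ∃ c : I → k, VDual.toT g = VDual.scal c := by
    intro g hg
    have h4 : ∀ i, ∃ r : k, (g i : Matrix (Fin (n i)) (Fin (n i)) k) = r • 1 := by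
      intro i
      have h4 : g i ∈ Subgroup.center (Matrix.SpecialLinearGroup (Fin (n i)) k) := by
        rw [Subgroup.mem_center_iff] at hg ⊢
        intro h
        have h5 := congrFun (hg (Pi.mulSingle i h)) i
        rw [Pi.mul_apply, Pi.mul_apply, Pi.mulSingle_eq_same] at h5
        exact h5
      obtain ⟨r, _, hr⟩ := Matrix.SpecialLinearGroup.mem_center_iff.mp h4
      refine ⟨r, ?_⟩
      rw [← hr, Matrix.scalar_apply, Matrix.smul_one_eq_diagonal]
    choose c hc using h4
    refine ⟨c, ?_⟩
    funext i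
    exact hc i
  obtain ⟨Θ, hΘ⟩ := VSum.bir_main (k := k) (fun i => (hn i).ne') (VSum.sumRep ρ) JT hJT hJTs
    (directSum R) (dualRep (directSum R)) S (dualRep S) hval (fun _ => rfl)
    (by
      obtain ⟨P, hP⟩ := hS
      refine ⟨Matrix.of P, ?_⟩
      intro g
      ext x y
      exact hP g x y)
    (fun _ => rfl) (by rw [Fintype.card_fin]; exact hq)
    (fun g h1 h2 => hcentral g (hcen g h1 h2)) D hD hfree
  refine ⟨Θ, ?_⟩
  intro g f
  have h1 := hΘ g f
  have h2 : VSum.dsum (dualRep (directSum R)) (dualRep S) g = dualRep (sumTwo (directSum R) S) g := by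
    apply Units.ext
    change Matrix.fromBlocks ((directSum R g⁻¹ : Matrix (Σ a, Fin (m a)) (Σ a, Fin (m a)) k)ᵀ) 0 0
      ((S g⁻¹ : Matrix (Fin q) (Fin q) k)ᵀ) = (Matrix.fromBlocks
        (directSum R g⁻¹ : Matrix (Σ a, Fin (m a)) (Σ a, Fin (m a)) k) 0 0
        (S g⁻¹ : Matrix (Fin q) (Fin q) k))ᵀ
    rw [Matrix.fromBlocks_transpose, Matrix.transpose_zero, Matrix.transpose_zero]
  rw [h2] at h1
  exact h1

end Pool.Agent.Results.MP_d7ed3f_ag.LargeSummand
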