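import Mathlib
import Pool.Agent.Helper59.VDual.Final

/-!
# `V` and `V*` are birationally `G`-isomorphic for type `A` groups `G` with `π₁(G)` killed by `2`

`G` is the image of `∏ SL_{n_i}(k)` in `GL(V)`, where `V = ⊕_a V_a` is a direct sum of irreducible
rational representations of `∏ SL_{n_i}(k)`.
-/

namespace Pool.Agent.Results.MP_d7ed3f_ag.TwoTorsionTypeA

open MvPolynomial Matrix

universe u v w

/-- The group `∏ SL_{n_i}(k)`. -/
abbrev SLProd (k : Type u) [Field k] {I : Type v} (n : I → ℕ) : Type (max u v) :=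
  ∀ i, Matrix.SpecialLinearGroup (Fin (n i)) k

section reps

variable {k : Type u} [Field k] {I : Type v} {n : I → ℕ} {m : ℕ}

/-- A homomorphism `R : ∏ SL_{n_i}(k) → GL_m(k)` is a rational representation if the entries of
`R g` are polynomials in the entries of `g`. -/
def IsRational (R : SLProd k n →* GL (Fin m) k) : Prop :=
  ∃ P : Fin m → Fin m → MvPolynomial (Σ i, Fin (n i) × Fin (n i)) k,
    ∀ (g : SLProd k n) (x y : Fin m), (R g : Matrix (Fin m) (Fin m) k) x y =
      eval (fun e => (g e.1 : Matrix (Fin (n e.1)) (Fin (n e.1)) k) e.2.1 e.2.2) (P x y)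

/-- `R` is irreducible: `k^m` is non-zero and has no invariant subspace besides `0` and `k^m`. -/
def IsIrreducible (R : SLProd k n →* GL (Fin m) k) : Prop :=
  0 < m ∧ ∀ W : Submodule k (Fin m → k),
    (∀ g, ∀ w ∈ W, (R g : Matrix (Fin m) (Fin m) k) *ᵥ w ∈ W) → W = ⊥ ∨ W = ⊤

/-- two representations (possibly of different dimensions) on which the centre of `∏ SL_{n_i}(k)`
acts through the same scalars -/
def SameCentralCharacter {m' : ℕ} (R : SLProd k n →* GL (Fin m) k)
    (R' : SLProd k n →* GL (Fin m') k) : Prop :=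
  ∀ z ∈ Subgroup.center (SLProd k n), ∀ c : k,
    (R z : Matrix (Fin m) (Fin m) k) = c • 1 ↔ (R' z : Matrix (Fin m') (Fin m') k) = c • 1

end reps

section sums

variable {k : Type u} [Field k] {G : Type*} [Group G]

/-- The direct sum `V = ⊕_a k^{m_a}` of matrix representations. -/
def directSum {A : Type w} [Fintype A] [DecidableEq A] {m : A → ℕ}
    (R : ∀ a, G →* GL (Fin (m a)) k) : G →* GL (Σ a, Fin (m a)) k where
  toFun g :=
    { val := Matrix.blockDiagonal' fun a => (R a g : Matrix (Fin (m a)) (Fin (m a)) k)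
      inv := Matrix.blockDiagonal' fun a => (R a g⁻¹ : Matrix (Fin (m a)) (Fin (m a)) k)
      val_inv := by
        rw [← Matrix.blockDiagonal'_mul]
        have : (fun a => (R a g : Matrix (Fin (m a)) (Fin (m a)) k) *
            (R a g⁻¹ : Matrix (Fin (m a)) (Fin (m a)) k)) = fun a => 1 := by
          funext a
          rw [← Units.val_mul, ← map_mul, mul_inv_cancel, map_one, Units.val_one]
        rw [this]
        exact Matrix.blockDiagonal'_one
      inv_val := by
        rw [← Matrix.blockDiagonal'_mul]
        have : (fun a => (R a g⁻¹ : Matrix (Fin (m a)) (Fin (m a)) k) *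
            (R a g : Matrix (Fin (m a)) (Fin (m a)) k)) = fun a => 1 := by
          funext a
          rw [← Units.val_mul, ← map_mul, inv_mul_cancel, map_one, Units.val_one]
        rw [this]
        exact Matrix.blockDiagonal'_one }
  map_one' := by
    apply Units.ext
    have : (fun a => (R a 1 : Matrix (Fin (m a)) (Fin (m a)) k)) = fun a => 1 := by
      funext a
      rw [map_one, Units.val_one]
    change Matrix.blockDiagonal' (fun a => (R a 1 : Matrix (Fin (m a)) (Fin (m a)) k)) = 1
    rw [this]
    exact Matrix.blockDiagonal'_one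
  map_mul' g h := by
    apply Units.ext
    change Matrix.blockDiagonal' (fun a => (R a (g * h) : Matrix (Fin (m a)) (Fin (m a)) k)) =
      Matrix.blockDiagonal' (fun a => (R a g : Matrix (Fin (m a)) (Fin (m a)) k)) *
        Matrix.blockDiagonal' (fun a => (R a h : Matrix (Fin (m a)) (Fin (m a)) k))
    rw [← Matrix.blockDiagonal'_mul]
    congr 1
    funext a
    rw [map_mul, Units.val_mul]

variable {ι : Type w} [Fintype ι] [DecidableEq ι]

/-- The dual representation, in the dual basis: `g ↦ (R(g)⁻¹)ᵀ`. -/
def dualRep (R : G →* GL ι k) : G →* GL ι k where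
  toFun g :=
    { val := (R g⁻¹ : Matrix ι ι k)ᵀ
      inv := (R g : Matrix ι ι k)ᵀ
      val_inv := by
        rw [← Matrix.transpose_mul, ← Units.val_mul, ← map_mul, mul_inv_cancel, map_one,
          Units.val_one, Matrix.transpose_one]
      inv_val := by
        rw [← Matrix.transpose_mul, ← Units.val_mul, ← map_mul, inv_mul_cancel, map_one,
          Units.val_one, Matrix.transpose_one] }
  map_one' := by
    apply Units.ext
    change (R 1⁻¹ : Matrix ι ι k)ᵀ = 1
    rw [inv_one, map_one, Units.val_one, Matrix.transpose_one]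
  map_mul' g h := by
    apply Units.ext
    change (R (g * h)⁻¹ : Matrix ι ι k)ᵀ = (R g⁻¹ : Matrix ι ι k)ᵀ * (R h⁻¹ : Matrix ι ι k)ᵀ
    rw [_root_.mul_inv_rev, map_mul, Units.val_mul, Matrix.transpose_mul]

/-- The linear `G`-varieties `V = k^ι` (via `R`) and `V' = k^ι` (via `R'`) are birationally
`G`-isomorphic: there is a `k`-isomorphism `Θ : k(V') → k(V)` of function fields with
`Θ(f ∘ R'(g)) = Θ(f) ∘ R(g)` for all `g` in `G` and `f` in `k(V')`.  Here `VDual.FF k ι` is the
field of rational functions `k(x_i : i ∈ ι)` and `VDual.ffSub M` is the substitution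
`f(x) ↦ f(M x)`. -/
def BirationallyIsomorphic (R R' : G →* GL ι k) : Prop :=
  ∃ Θ : VDual.FF k ι ≃ₐ[k] VDual.FF k ι, ∀ (g : G) (f : VDual.FF k ι),
    Θ (VDual.ffSub (R' g) f) = VDual.ffSub (R g) (Θ f)

end sums

/-- Let `k` be algebraically closed of characteristic zero and let `V = ⊕_a V_a` be a direct sum of
irreducible rational representations `R a` of `∏ SL_{n_i}(k)`; let `G` be the image of
`∏ SL_{n_i}(k)` in `GL(V)`.  Suppose that

* (`hker`) the kernel of `∏ SL_{n_i}(k) → G`, i.e. the fundamental group of `G`, is killed by `2`;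
* (`hfree`) for `v` in the dense open set `D ≠ 0` of `V`, every `g` for which each component `v_a`
  is an eigenvector of `R a g`, the eigenvalue depending only on the central character of `V_a`,
  is central.

Then `V` and `V*` are birationally `G`-isomorphic. -/
theorem result {k : Type u} [Field k] [IsAlgClosed k] [CharZero k]
    {I : Type v} [Fintype I] [DecidableEq I] {A : Type w} [Fintype A] [DecidableEq A]
    (n : I → ℕ) (hn : ∀ i, 0 < n i) (m : A → ℕ)
    (R : ∀ a, SLProd k n →* GL (Fin (m a)) k)
    (hrat : ∀ a, IsRational (R a)) (hirr : ∀ a, IsIrreducible (R a))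
    (hker : ∀ g, directSum R g = 1 → g ^ 2 = 1)
    (hfree : ∃ D : MvPolynomial (Σ a, Fin (m a)) k, D ≠ 0 ∧
      ∀ v : (Σ a, Fin (m a)) → k, eval v D ≠ 0 → ∀ (g : SLProd k n) (t : A → k),
        (∀ a, (R a g : Matrix (Fin (m a)) (Fin (m a)) k) *ᵥ (fun x => v ⟨a, x⟩) =
          t a • (fun x => v ⟨a, x⟩)) →
        (∀ a a', SameCentralCharacter (R a) (R a') → t a = t a') →
        g ∈ Subgroup.center (SLProd k n)) :
    BirationallyIsomorphic (directSum R) (dualRep (directSum R)) := by
  obtain ⟨D, hD, hfree⟩ := hfree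
  let R' : ∀ a, VDual.SLP k n →* Matrix (Fin (m a)) (Fin (m a)) k := fun a =>
    (Units.coeHom (Matrix (Fin (m a)) (Fin (m a)) k)).comp (R a)
  obtain ⟨Θ, hΘ⟩ := VDual.sl_main (k := k) (fun i => (hn i).ne') R'
    (by
      intro a
      obtain ⟨P, hP⟩ := hrat a
      refine ⟨Matrix.of P, ?_⟩
      intro g
      ext x y
      exact hP g x y)
    (by
      intro a
      exact ⟨⟨⟨0, (hirr a).1⟩⟩, (hirr a).2⟩)
    (by
      intro g hg
      rw [← pow_two]
      apply hker
      apply Units.ext
      change Matrix.blockDiagonal' (fun a => (R a g : Matrix (Fin (m a)) (Fin (m a)) k)) = 1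
      have : (fun a => (R a g : Matrix (Fin (m a)) (Fin (m a)) k)) = fun a => 1 := by
        funext a
        exact hg a
      rw [this]
      exact Matrix.blockDiagonal'_one)
    D hD
    (by
      intro v hv g t h1 h2 i
      have h3 := hfree v hv g t h1 (by
        intro a a' hcc
        apply h2
        intro z hz c
        exact hcc z (Subgroup.mem_center_iff.mpr fun g => (hz g).symm) c)
      -- the `i`-th component is central in `SL`
      have h4 : g i ∈ Subgroup.center (Matrix.SpecialLinearGroup (Fin (n i)) k) := by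
        rw [Subgroup.mem_center_iff] at h3 ⊢
        intro h
        have h5 := congrFun (h3 (Pi.mulSingle i h)) i
        rw [Pi.mul_apply, Pi.mul_apply, Pi.mulSingle_eq_same] at h5
        exact h5
      obtain ⟨r, _, hr⟩ := Matrix.SpecialLinearGroup.mem_center_iff.mp h4
      refine ⟨r, ?_⟩
      change (g i : Matrix (Fin (n i)) (Fin (n i)) k) = r • 1
      rw [← hr, Matrix.scalar_apply, Matrix.smul_one_eq_diagonal])
  refine ⟨Θ, ?_⟩
  intro g f
  have h1 := hΘ g (directSum R g) rfl f
  have h2 : VDual.dualU (directSum R g) = dualRep (directSum R) g := by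
    apply Units.ext
    change ((directSum R g)⁻¹ : GL (Σ a, Fin (m a)) k).valᵀ = (directSum R g⁻¹ : GL (Σ a, Fin (m a)) k).valᵀ
    rw [map_inv]
  rw [h2] at h1
  exact h1

end Pool.Agent.Results.MP_d7ed3f_ag.TwoTorsionTypeA
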